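import Mathlib
import Pool.Agent.Q99.IE.Defs
import Pool.Agent.Q99.IE.Core
import Pool.Agent.Q99.IE.Sep
import Pool.Agent.Q99.IE.Sep2

set_option autoImplicit false

/-!
# The (I)-envelope of a convex union of two sets

For every normed space `X` over `ℝ` or `ℂ` and all sets `A`, `B` in the dual of `X` whose union is
convex, `Ienv (A ∪ B) = Ienv A ∪ Ienv B`. The sets `A` and `B` themselves need not be convex.

Idea: if `η` is in neither envelope, sequences `(x_n)` and `(y_n)` in the unit ball separate `η`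
from `A` and from `B`. After passing to a subsequence some fixed convex combination of the two
sequences separates `η` from `A ∪ B`: the parameters for which a point of `A` (of `B`) obstructs
form two open subsets of `[0, 1]`; if they covered `[0, 1]` for every subsequence, then after a
stabilisation (a countably generated filter deciding all rational parameters) one parameter would
be obstructed by a point of `A` and by a point of `B` along the same ultrafilter, and the segment
between these two points would contain a point outside `A ∪ B`.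
-/

namespace Pool.Agent.Results.MP_b3c6e2_an.UnionFormula

open Q99.IE Filter Topology

variable {𝕜 : Type*} [RCLike 𝕜] {X : Type*} [NormedAddCommGroup X] [NormedSpace 𝕜 X]

lemma Ienv_mono {A B : Set (StrongDual 𝕜 X)} (h : A ⊆ B) : Ienv A ⊆ Ienv B := by
  intro η hη
  refine Set.mem_iInter₂.2 fun S hS => ?_
  have hcov : A = ⋃ n, S n ∩ A := by
    rw [← Set.iUnion_inter, ← hS, Set.inter_eq_right.2 h]
  have h1 := Set.mem_iInter₂.1 hη (fun n => S n ∩ A) hcov
  refine closure_mono (convexHull_mono (Set.iUnion_mono fun n => ?_)) h1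
  exact wstarClosure_mono (convexHull_mono Set.inter_subset_left)

lemma sep_union {A B : Set (StrongDual 𝕜 X)} (h : Convex ℝ (A ∪ B)) {η : StrongDual 𝕜 X}
    (hA : Sep A η) (hB : Sep B η) : Sep (A ∪ B) η := by
  obtain ⟨x, hx, s, δ, hδ, hηx, hxA⟩ := hA
  obtain ⟨y, hy, s', δ', hδ', hηy, hyB⟩ := hB
  have aff : ∀ (z : X) (r : ℝ) (ξ ζ : StrongDual 𝕜 X) (a b : ℝ), a + b = 1 →
      RCLike.re ((a • ξ + b • ζ) z) - r = a * (RCLike.re (ξ z) - r) + b * (RCLike.re (ζ z) - r) := by
    intro z r ξ ζ a b hab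
    have : RCLike.re ((a • ξ + b • ζ) z) = a * RCLike.re (ξ z) + b * RCLike.re (ζ z) := by
      rw [add_apply, map_add]
      simp [RCLike.smul_re]
    rw [this]
    have h1 : b = 1 - a := by linarith
    rw [h1]; ring
  have bdd : ∀ (z : ℕ → X), (∀ n, ‖z n‖ ≤ 1) → ∀ (r : ℝ) (ξ : StrongDual 𝕜 X),
      ∃ R, ∀ n, |RCLike.re (ξ (z n)) - r| ≤ R := by
    intro z hz r ξ
    refine ⟨‖ξ‖ + |r|, fun n => ?_⟩
    calc |RCLike.re (ξ (z n)) - r| ≤ |RCLike.re (ξ (z n))| + |r| := abs_sub _ _
      _ ≤ ‖ξ (z n)‖ + |r| := by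
        have := RCLike.abs_re_le_norm (ξ (z n))
        linarith
      _ ≤ ‖ξ‖ + |r| := by
        have h1 := ξ.le_opNorm (z n)
        have h2 := mul_le_mul_of_nonneg_left (hz n) (norm_nonneg ξ)
        linarith
  obtain ⟨F, hF, t, ht, hmain⟩ := core A B h (fun n ξ => RCLike.re (ξ (x n)) - s)
    (fun n ξ => RCLike.re (ξ (y n)) - s') (fun n => aff (x n) s) (fun n => aff (y n) s')
    (bdd x hx s) (bdd y hy s') (fun ξ hξ => (hxA ξ hξ).mono fun n hn => by linarith)
    (fun ξ hξ => (hyB ξ hξ).mono fun n hn => by linarith)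
  obtain ⟨-, hne, hcg⟩ := hF
  obtain ⟨k, hk⟩ := F.exists_seq_tendsto
  have hre : ∀ (ξ : StrongDual 𝕜 X) (j : ℕ),
      RCLike.re (ξ ((t : 𝕜) • x (k j) + ((1 - t : ℝ) : 𝕜) • y (k j))) =
        t * RCLike.re (ξ (x (k j))) + (1 - t) * RCLike.re (ξ (y (k j))) := by
    intro ξ j
    rw [map_add, map_smul, map_smul, smul_eq_mul, smul_eq_mul, map_add, RCLike.re_ofReal_mul,
      RCLike.re_ofReal_mul]
  set d := min δ δ' with hd
  have hd0 : 0 < d := lt_min hδ hδ'
  refine ⟨fun j => (t : 𝕜) • x (k j) + ((1 - t : ℝ) : 𝕜) • y (k j), fun j => ?_,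
    t * s + (1 - t) * s' + d / 2, d / 2, by positivity, fun j => ?_, fun ξ hξ => ?_⟩
  · refine (norm_add_le _ _).trans ?_
    rw [norm_smul, norm_smul, RCLike.norm_ofReal, RCLike.norm_ofReal, abs_of_nonneg ht.1,
      abs_of_nonneg (sub_nonneg.2 ht.2)]
    have h1 := mul_le_mul_of_nonneg_left (hx (k j)) ht.1
    have h2 := mul_le_mul_of_nonneg_left (hy (k j)) (sub_nonneg.2 ht.2)
    linarith
  · rw [hre]
    have h1 := mul_le_mul_of_nonneg_left
      ((add_le_add_right (min_le_left δ δ') s).trans (hηx (k j))) ht.1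
    have h2 := mul_le_mul_of_nonneg_left
      ((add_le_add_right (min_le_right δ δ') s').trans (hηy (k j))) (sub_nonneg.2 ht.2)
    rw [← hd] at h1 h2
    linarith
  · have h1 := hk.eventually (hmain ξ hξ (d / 2) (by positivity))
    filter_upwards [h1] with j hj
    rw [hre]
    linarith

/-- For all sets `A`, `B` of functionals on a normed space over `ℝ` or `ℂ` (in particular for
convex ones) such that `A ∪ B` is convex, `Ienv (A ∪ B) = Ienv A ∪ Ienv B`. -/
theorem result {𝕜 : Type*} [RCLike 𝕜] {X : Type*} [NormedAddCommGroup X] [NormedSpace 𝕜 X]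
    (A B : Set (StrongDual 𝕜 X)) (h : Convex ℝ (A ∪ B)) :
    Ienv (A ∪ B) = Ienv A ∪ Ienv B := by
  refine Set.Subset.antisymm (fun η hη => ?_)
    (Set.union_subset (Ienv_mono Set.subset_union_left) (Ienv_mono Set.subset_union_right))
  by_contra hno
  rw [Set.mem_union, not_or] at hno
  exact not_mem_of_sep (sep_union h (sep_of_not_mem hno.1) (sep_of_not_mem hno.2)) hη

end Pool.Agent.Results.MP_b3c6e2_an.UnionFormula
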